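import Pool.Agent.QSN.StmtsC

/-!
# Squad QSN, rows MIN and CLN (helper17)
-/

set_option autoImplicit false

namespace Pool.Agent.QSN.H17

open Matrix Finset Pool.Agent.QSX Pool.Agent.QSN

theorem min : MinStmt := by
  intro F _ m T _ _ v
  constructor
  · intro hv
    obtain ⟨c, hc⟩ : ∃ c : Fin m × Fin m → T → F, c = fun q t => v t q.1 q.2 := ⟨_, rfl⟩
    have htop : Submodule.span F (Set.range c) = ⊤ := by
      by_contra hne
      obtain ⟨f, hf, hker⟩ := Submodule.exists_le_ker_of_lt_top _ (lt_top_iff_ne_top.2 hne)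
      apply hf
      obtain ⟨g, hg⟩ : ∃ g : T → F, g = fun t => f (fun j => if t = j then 1 else 0) := ⟨_, rfl⟩
      have hfg : ∀ z : T → F, f z = ∑ t, z t * g t := by
        intro z
        rw [LinearMap.pi_apply_eq_sum_univ f z, hg]
        rfl
      have h1 : ∑ t, g t • v t = 0 := by
        ext i k
        rw [Matrix.sum_apply, Matrix.zero_apply]
        have h2 : f (c (i, k)) = 0 := by
          have : c (i, k) ∈ LinearMap.ker f := hker (Submodule.subset_span ⟨(i, k), rfl⟩)
          exact this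
        rw [← h2, hfg]
        refine Finset.sum_congr rfl fun t _ => ?_
        rw [Matrix.smul_apply, smul_eq_mul, mul_comm, hc]
      have h3 := Fintype.linearIndependent_iff.1 hv _ h1
      apply LinearMap.ext
      intro z
      rw [hfg z, LinearMap.zero_apply]
      refine Finset.sum_eq_zero fun t _ => ?_
      rw [h3 t, mul_zero]
    obtain ⟨κ, a, ha, hsp, hli⟩ := exists_linearIndependent' F c
    rw [htop] at hsp
    haveI : Finite κ := Finite.of_injective a ha
    haveI : Fintype κ := Fintype.ofFinite κ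
    have b : Module.Basis κ F (T → F) := Module.Basis.mk hli hsp.ge
    have hcard : Fintype.card T = Fintype.card κ := by
      rw [← Module.finrank_eq_card_basis b, Module.finrank_fintype_fun_eq_card]
    obtain ⟨e⟩ : Nonempty (T ≃ κ) := ⟨Fintype.equivOfCardEq hcard⟩
    refine ⟨fun s => a (e s), ?_⟩
    have h4 : LinearIndependent F (Matrix.of fun s t : T => v t (a (e s)).1 (a (e s)).2).row := by
      have := hli.comp e e.injective
      rw [hc] at this
      exact this
    rw [Matrix.linearIndependent_rows_iff_isUnit, Matrix.isUnit_iff_isUnit_det,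
      isUnit_iff_ne_zero] at h4
    exact h4
  · rintro ⟨p, hp⟩
    rw [Fintype.linearIndependent_iff]
    intro g hg
    have h1 : (Matrix.of fun s t : T => v t (p s).1 (p s).2).mulVec g = 0 := by
      funext s
      have h2 := congrFun (congrFun hg (p s).1) (p s).2
      rw [Matrix.sum_apply, Matrix.zero_apply] at h2
      rw [Pi.zero_apply, ← h2]
      change ∑ t, v t (p s).1 (p s).2 * g t = _
      refine Finset.sum_congr rfl fun t _ => ?_
      rw [Matrix.smul_apply, smul_eq_mul, mul_comm]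
    have h3 := Matrix.eq_zero_of_mulVec_eq_zero hp h1
    intro i
    rw [h3]
    rfl

theorem bad_iff {X : Dat} (hX : MS X) {V : Type} [AddCommGroup V] [Module ℝ V] (C : hX.ι → V)
    (ρ : X.b →ₗ[ℝ] ℝ) :
    (¬ LinearIndependent ℝ fun t : {t : hX.ι // hX.rt t = ρ} => C t.1) ↔
      ∃ w : hX.ι → ℝ, (∀ t, hX.rt t ≠ ρ → w t = 0) ∧ ∑ t, w t • C t = 0 ∧ ∃ t, w t ≠ 0 := by
  classical
  rw [Fintype.not_linearIndependent_iff]
  constructor
  · rintro ⟨g, hg, i, hi⟩
    obtain ⟨w, hw⟩ : ∃ w : hX.ι → ℝ, w = fun t => if h : hX.rt t = ρ then g ⟨t, h⟩ else 0 :=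
      ⟨_, rfl⟩
    have hw0 : ∀ t, hX.rt t ≠ ρ → w t = 0 := by
      intro t ht
      rw [hw]
      exact dif_neg ht
    have hw1 : ∀ t : {t : hX.ι // hX.rt t = ρ}, w t.1 = g t := by
      intro t
      rw [hw]
      exact dif_pos t.2
    refine ⟨w, hw0, ?_, i.1, by rw [hw1]; exact hi⟩
    calc ∑ t, w t • C t = ∑ t ∈ Finset.univ.filter (fun t => hX.rt t = ρ), w t • C t := by
          rw [Finset.sum_filter]
          refine Finset.sum_congr rfl fun t _ => ?_
          by_cases h : hX.rt t = ρ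
          · rw [if_pos h]
          · rw [if_neg h, hw0 t h, zero_smul]
      _ = ∑ t : {t : hX.ι // hX.rt t = ρ}, w t.1 • C t.1 :=
          Finset.sum_subtype _ (fun x => by simp) _
      _ = 0 := by
          rw [← hg]
          exact Finset.sum_congr rfl fun t _ => by rw [hw1]
  · rintro ⟨w, hw, hs, i, hi⟩
    have hi' : hX.rt i = ρ := by
      by_contra h
      exact hi (hw i h)
    refine ⟨fun t => w t.1, ?_, ⟨i, hi'⟩, hi⟩
    calc ∑ t : {t : hX.ι // hX.rt t = ρ}, w t.1 • C t.1 =
        ∑ t ∈ Finset.univ.filter (fun t => hX.rt t = ρ), w t • C t :=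
          (Finset.sum_subtype (p := fun t => hX.rt t = ρ) (Finset.univ.filter
            fun t => hX.rt t = ρ) (fun x => by simp) (fun t => w t • C t)).symm
      _ = ∑ t, w t • C t := by
          rw [Finset.sum_filter]
          refine Finset.sum_congr rfl fun t _ => ?_
          by_cases h : hX.rt t = ρ
          · rw [if_pos h]
          · rw [if_neg h, hw t h, zero_smul]
      _ = 0 := hs

theorem cln (brn : BrnStmt) : ClnStmt := by
  intro X hX m C hbr htop l₁
  obtain ⟨T, hT⟩ : ∃ T : Matrix (Fin X.m) (Fin X.m) ℝ →ₗ[ℝ] Matrix (Fin m) (Fin m) ℝ,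
      ∀ l, T (hX.e l) = C l := by
    obtain ⟨T, hT⟩ := LinearMap.exists_extend ((Module.Basis.span hX.lin).constr ℝ C)
    refine ⟨T, fun l => ?_⟩
    have h1 := congrArg (fun f => f (Module.Basis.span hX.lin l)) hT
    simp only [LinearMap.comp_apply, Submodule.subtype_apply, Module.Basis.constr_basis] at h1
    rw [Module.Basis.span_apply] at h1
    exact h1
  have hbrT : ∀ l k, T (hX.br hX.e l k) = hX.br C l k := by
    intro l k
    rw [MS.br, MS.br, map_list_sum, List.map_map]
    congr 1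
    refine List.map_congr_left fun t _ => ?_
    change T _ = _
    rw [map_smul, hT]
  have hstar : ∀ l k, hX.rt l ≠ hX.rt k →
      T (hX.e l * hX.e k - hX.e k * hX.e l) = C l * C k - C k * C l := by
    intro l k h
    rw [brn X hX l k h, hbrT, hbr l k h]
  by_contra hl₁
  obtain ⟨a, ha⟩ := hX.pos
  obtain ⟨l₀, hl₀, hmax⟩ := Set.exists_max_image
    {l : hX.ι | ¬ LinearIndependent ℝ fun t : {t : hX.ι // hX.rt t = hX.rt l} => C t.1}
    (fun l => hX.rt l a) (Set.toFinite _) ⟨l₁, hl₁⟩
  have hne : hX.rt l₀ ≠ hX.rt (hX.top (hX.comp l₀)) := by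
    intro h
    apply hl₀
    have := htop l₀
    rw [← h] at this
    exact this
  obtain ⟨w, hw, hs, i, hi⟩ := (bad_iff hX C (hX.rt l₀)).1 hl₀
  have hxm : ∑ t, w t • hX.e t ∈ Submodule.span ℝ (hX.e '' {l' | hX.rt l' = hX.rt l₀}) := by
    refine Submodule.sum_mem _ fun t _ => ?_
    by_cases h : hX.rt t = hX.rt l₀
    · exact Submodule.smul_mem _ _ (Submodule.subset_span ⟨t, h, rfl⟩)
    · rw [hw t h, zero_smul]
      exact Submodule.zero_mem _
  have hx0 : ∑ t, w t • hX.e t ≠ 0 := by
    intro h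
    exact hi (Fintype.linearIndependent_iff.1 hX.lin w h i)
  have hk : ∃ k, hX.rt k ≠ hX.rt l₀ ∧
      (∑ t, w t • hX.e t) * hX.e k - hX.e k * (∑ t, w t • hX.e t) ≠ 0 := by
    by_contra hcon
    push Not at hcon
    exact hx0 (hX.climb l₀ hne _ hxm hcon)
  obtain ⟨k, hk1, hk2⟩ := hk
  have hu : (∑ t, w t • hX.e t) * hX.e k - hX.e k * (∑ t, w t • hX.e t) =
      ∑ t, w t • (hX.e t * hX.e k - hX.e k * hX.e t) := by
    rw [Finset.sum_mul, Finset.mul_sum, ← Finset.sum_sub_distrib]
    refine Finset.sum_congr rfl fun t _ => ?_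
    rw [smul_sub, smul_mul_assoc, mul_smul_comm]
  have hTu : T (∑ t, w t • (hX.e t * hX.e k - hX.e k * hX.e t)) = 0 := by
    have h1 : T (∑ t, w t • (hX.e t * hX.e k - hX.e k * hX.e t)) =
        (∑ t, w t • C t) * C k - C k * (∑ t, w t • C t) := by
      rw [map_sum, Finset.sum_mul, Finset.mul_sum, ← Finset.sum_sub_distrib]
      refine Finset.sum_congr rfl fun t _ => ?_
      by_cases h : hX.rt t = hX.rt l₀
      · rw [map_smul, hstar t k (by rw [h]; exact hk1.symm), smul_sub, smul_mul_assoc,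
          mul_smul_comm]
      · rw [hw t h, zero_smul, map_zero, zero_smul, zero_mul, mul_zero, sub_zero]
    rw [h1, hs, zero_mul, mul_zero, sub_zero]
  have hum : ∑ t, w t • (hX.e t * hX.e k - hX.e k * hX.e t) ∈
      Submodule.span ℝ (hX.e '' {s | hX.rt s = hX.rt l₀ + hX.rt k}) := by
    refine Submodule.sum_mem _ fun t _ => ?_
    by_cases h : hX.rt t = hX.rt l₀
    · refine Submodule.smul_mem _ _ ?_
      rw [brn X hX t k (by rw [h]; exact hk1.symm), MS.br]
      refine list_sum_mem fun y hy => ?_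
      obtain ⟨s, hs1, rfl⟩ := List.mem_map.1 hy
      rw [List.mem_filter] at hs1
      obtain ⟨hs2, hs3⟩ := hs1
      have hs4 : s.2.1 = 1 ∧ s.2.2.1 = 1 := by simpa using hs3
      refine Submodule.smul_mem _ _ (Submodule.subset_span ⟨s.1, ?_, rfl⟩)
      change hX.rt s.1 = _
      rw [(hX.L_rt t k s hs2).2.2, hs4.1, hs4.2, h, Nat.cast_one, one_smul, one_smul]
    · rw [hw t h, zero_smul]
      exact Submodule.zero_mem _
  obtain ⟨y, hy1, hy2⟩ := (Finsupp.mem_span_image_iff_linearCombination ℝ).1 hum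
  have hy3 : ∀ s, hX.rt s ≠ hX.rt l₀ + hX.rt k → y s = 0 := by
    intro s hs'
    by_contra h
    exact hs' ((Finsupp.mem_supported ℝ y).1 hy1 (Finsupp.mem_support_iff.2 h))
  rw [Finsupp.linearCombination_apply, Finsupp.sum_fintype _ _ (by simp)] at hy2
  obtain ⟨s₀, hs₀⟩ : ∃ s, y s ≠ 0 := by
    by_contra hcon
    push Not at hcon
    apply hk2
    rw [hu, ← hy2]
    exact Finset.sum_eq_zero fun s _ => by rw [hcon s, zero_smul]
  have hs₁ : hX.rt s₀ = hX.rt l₀ + hX.rt k := by
    by_contra h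
    exact hs₀ (hy3 s₀ h)
  have hbad : ¬ LinearIndependent ℝ fun t : {t : hX.ι // hX.rt t = hX.rt s₀} => C t.1 := by
    rw [bad_iff hX C (hX.rt s₀)]
    refine ⟨y, fun t ht => hy3 t (by rw [← hs₁]; exact ht), ?_, s₀, hs₀⟩
    rw [← hTu, ← hy2, map_sum]
    refine Finset.sum_congr rfl fun t _ => ?_
    rw [map_smul, hT]
  have h1 := hmax s₀ hbad
  rw [hs₁] at h1
  have h2 := ha k
  simp only [LinearMap.add_apply] at h1
  linarith

end Pool.Agent.QSN.H17
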