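import Pool.Agent.QSN.StmtsA

/-!
# Squad QSN, rows GLS, GEN and CAM (helper17)
-/

set_option autoImplicit false

namespace Pool.Agent.QSN.H17

open Matrix Finset Pool.Agent.QSX Pool.Agent.QSN

theorem gls : GlsStmt := by
  intro G α _ K f p _ L h1 h2 h3
  have key : ∀ L : List α, (∀ a ∈ L, p a → ∀ h ∈ K, f a * h * (f a)⁻¹ ∈ K) →
      (∀ a ∈ L, ¬ p a → f a ∈ K) →
      ∃ k ∈ K, (L.map f).prod = k * ((L.filter p).map f).prod := by
    intro L
    induction L with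
    | nil => intro _ _; exact ⟨1, K.one_mem, by simp⟩
    | cons a L ih =>
      intro h1 h2
      obtain ⟨k, hk, e⟩ := ih (fun b hb => h1 b (List.mem_cons_of_mem _ hb))
        (fun b hb => h2 b (List.mem_cons_of_mem _ hb))
      by_cases pa : p a
      · refine ⟨f a * k * (f a)⁻¹, h1 a List.mem_cons_self pa k hk, ?_⟩
        rw [List.filter_cons_of_pos (by simpa using pa), List.map_cons, List.prod_cons,
          List.map_cons, List.prod_cons, e]
        group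
      · refine ⟨f a * k, K.mul_mem (h2 a List.mem_cons_self pa) hk, ?_⟩
        rw [List.filter_cons_of_neg (by simpa using pa), List.map_cons, List.prod_cons, e,
          mul_assoc]
  obtain ⟨k, hk, e⟩ := key L h1 h2
  have h4 : ((L.filter p).map f).prod = k⁻¹ * (L.map f).prod := by rw [e]; group
  rw [h4]
  exact K.mul_mem (K.inv_mem hk) h3

theorem cam (cha : ChaStmt) : CamStmt := by
  intro m S w hS hw hws
  obtain ⟨B, hBS, hsp, hli⟩ := exists_linearIndependent ℝ S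
  have hfin : B.Finite := hli.setFinite
  haveI : Fintype B := hfin.fintype
  rw [← hsp] at hws
  have h1 : w ∈ Submodule.span ℝ (Set.range (Subtype.val : B → Matrix (Fin m) (Fin m) ℝ)) := by
    rwa [Subtype.range_val]
  obtain ⟨c, hc⟩ := (Submodule.mem_span_range_iff_exists_fun ℝ).1 h1
  have h2 := cha m B (fun b => b.1) w c hli (fun b => hS b.1 (hBS b.2)) hw hc.symm
  choose q hq using h2
  refine ⟨Finset.univ.toList.map fun b : B => (b.1, q b), ?_, ?_⟩
  · intro x hx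
    obtain ⟨b, -, rfl⟩ := List.mem_map.1 hx
    exact hBS b.2
  · rw [List.map_map, ← hc]
    change _ = (List.map (fun b : B => ((q b : ℚ) : ℝ) • b.1) Finset.univ.toList).sum
    rw [Finset.sum_map_toList]
    exact Finset.sum_congr rfl fun b _ => by rw [hq b]

theorem ue_zero {m : ℕ} : ue (0 : Matrix (Fin m) (Fin m) ℝ) = 1 := by
  apply Units.ext
  rw [ue_val SU.zero, mexp_zero]
  rfl

/-- products of exponentials in a commutative space of matrices -/
theorem ue_list {m : ℕ} (W : Submodule ℝ (Matrix (Fin m) (Fin m) ℝ)) (hsu : ∀ x ∈ W, SU x)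
    (hc : ∀ x ∈ W, ∀ y ∈ W, x * y = y * x) {α : Type} (f : α → Matrix (Fin m) (Fin m) ℝ)
    (L : List α) (hL : ∀ a ∈ L, f a ∈ W) :
    (L.map f).sum ∈ W ∧ (L.map fun a => ue (f a)).prod = ue ((L.map f).sum) := by
  induction L with
  | nil => exact ⟨W.zero_mem, by simp [ue_zero]⟩
  | cons a L ih =>
    obtain ⟨i1, i2⟩ := ih fun b hb => hL b (List.mem_cons_of_mem _ hb)
    have ha := hL a List.mem_cons_self
    rw [List.map_cons, List.sum_cons, List.map_cons, List.prod_cons, i2]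
    refine ⟨W.add_mem ha i1, ?_⟩
    apply Units.ext
    rw [Units.val_mul, ue_val (hsu _ ha), ue_val (hsu _ i1), ue_val (hsu _ (W.add_mem ha i1))]
    exact (mexp_add (hsu _ ha) (hsu _ i1) (hc _ ha _ i1)).symm

theorem gen (csr : CsrStmt) (brn : BrnStmt) (knr : KnrStmt) (gls : GlsStmt) : GenStmt := by
  intro X hX l l' hll t ht t' htt x
  obtain ⟨W, hW⟩ : ∃ W : Submodule ℝ (Matrix (Fin X.m) (Fin X.m) ℝ),
    W = Submodule.span ℝ (hX.e '' {t | hX.rt t = hX.rt t'}) := ⟨_, rfl⟩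
  have hWn : ∀ y ∈ W, SU y := by
    intro y hy
    apply X.su
    have : W ≤ X.n := by
      rw [hW, ← hX.span_e]
      apply Submodule.span_mono
      rintro _ ⟨s, -, rfl⟩
      exact ⟨s, rfl⟩
    exact this hy
  have hWc : ∀ y ∈ W, ∀ z ∈ W, y * z = z * y := by
    intro y hy z hz
    rw [hW] at hy hz
    exact csr X hX t' y hy z hz
  have he : ∀ s, hX.rt s = hX.rt t' → hX.e s ∈ W := by
    intro s hs
    rw [hW]
    exact Submodule.subset_span ⟨s, hs, rfl⟩
  have partA : ∀ w w' : hX.ι, hX.rt w ≠ hX.rt w' → hX.rt w + hX.rt w' = hX.rt t' → ∀ x : ℚ,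
      (hX.e w * hX.e w' - hX.e w' * hX.e w ∈ W) ∧
      ue ((x : ℝ) • (hX.e w * hX.e w' - hX.e w' * hX.e w)) ∈ hX.K t' := by
    intro w w' hww hs x
    have n1 : hX.rt w ≠ hX.rt t' := by
      intro h
      rw [← h] at hs
      exact hX.rt_ne w' (by simpa using hs)
    have n2 : hX.rt w' ≠ hX.rt t' := by
      intro h
      rw [← h] at hs
      exact hX.rt_ne w (by simpa using hs)
    have g1 : ue ((x : ℝ) • hX.e w) ∈ hX.K t' := Subgroup.subset_closure ⟨w, x, n1, rfl⟩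
    have g2 : ue ((1 : ℝ) • hX.e w') ∈ hX.K t' :=
      Subgroup.subset_closure ⟨w', 1, n2, by rw [Rat.cast_one]⟩
    have hpq : ∀ s ∈ hX.L w w', hX.rt s.1 = hX.rt t' ↔ (s.2.1 = 1 ∧ s.2.2.1 = 1) := by
      intro s hs'
      have h1 := (hX.L_rt w w' s hs').2.2
      constructor
      · intro h
        have h2 : (s.2.1 : ℝ) • hX.rt w + (s.2.2.1 : ℝ) • hX.rt w' =
            (1 : ℝ) • hX.rt w + (1 : ℝ) • hX.rt w' := by
          rw [← h1, h, ← hs, one_smul, one_smul]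
        have h3 := hX.indep hww h2
        exact ⟨by exact_mod_cast h3.1, by exact_mod_cast h3.2⟩
      · rintro ⟨h2, h3⟩
        rw [h1, h2, h3, ← hs, Nat.cast_one, one_smul, one_smul]
    have hcom := hX.com w w' hww (x : ℝ) 1
    have hmem : ((hX.L w w').map fun t => ue (((t.2.2.2 : ℝ) * (x : ℝ) ^ t.2.1 *
        (1 : ℝ) ^ t.2.2.1) • hX.e t.1)).prod ∈ hX.K t' := by
      rw [← hcom]
      exact (hX.K t').mul_mem ((hX.K t').mul_mem ((hX.K t').mul_mem g1 g2)
        ((hX.K t').inv_mem g1)) ((hX.K t').inv_mem g2)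
    have hg := gls _ _ (hX.K t') (fun t => ue (((t.2.2.2 : ℝ) * (x : ℝ) ^ t.2.1 *
        (1 : ℝ) ^ t.2.2.1) • hX.e t.1)) (fun t : hX.ι × ℕ × ℕ × ℚ => t.2.1 = 1 ∧ t.2.2.1 = 1)
        (hX.L w w') (by
          intro s hs' hp h hh
          have hr := (hpq s hs').2 hp
          have := knr X hX t' s.1 (s.2.2.2 * x ^ s.2.1 * 1 ^ s.2.2.1) hr h hh
          push_cast at this
          exact this) (by
          intro s hs' hp
          have hr : hX.rt s.1 ≠ hX.rt t' := fun h => hp ((hpq s hs').1 h)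
          refine Subgroup.subset_closure ⟨s.1, s.2.2.2 * x ^ s.2.1 * 1 ^ s.2.2.1, hr, ?_⟩
          push_cast
          rfl) hmem
    -- the product is an exponential
    have hbr := brn X hX w w' hww
    obtain ⟨F, hF⟩ : ∃ F : List (hX.ι × ℕ × ℕ × ℚ),
      F = (hX.L w w').filter fun t => t.2.1 = 1 ∧ t.2.2.1 = 1 := ⟨_, rfl⟩
    have hFm : ∀ s ∈ F, s ∈ hX.L w w' ∧ s.2.1 = 1 ∧ s.2.2.1 = 1 := by
      intro s hs'
      rw [hF, List.mem_filter] at hs'
      exact ⟨hs'.1, by simpa using hs'.2⟩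
    have hFW : ∀ s ∈ F, hX.e s.1 ∈ W := fun s hs' =>
      he s.1 ((hpq s (hFm s hs').1).2 (hFm s hs').2)
    have hbr' : hX.e w * hX.e w' - hX.e w' * hX.e w =
        (F.map fun t => ((t.2.2.2 : ℚ) : ℝ) • hX.e t.1).sum := by
      rw [hbr, MS.br, hF]
    have u1 := ue_list W hWn hWc (fun s : hX.ι × ℕ × ℕ × ℚ => (s.2.2.2 : ℝ) • hX.e s.1) F
      (fun s hs' => W.smul_mem _ (hFW s hs'))
    have u2 := ue_list W hWn hWc (fun s : hX.ι × ℕ × ℕ × ℚ =>
      (x : ℝ) • ((s.2.2.2 : ℝ) • hX.e s.1)) F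
      (fun s hs' => W.smul_mem _ (W.smul_mem _ (hFW s hs')))
    refine ⟨by rw [hbr']; exact u1.1, ?_⟩
    have e1 : (x : ℝ) • (F.map fun t => ((t.2.2.2 : ℚ) : ℝ) • hX.e t.1).sum =
        (F.map fun t => (x : ℝ) • (((t.2.2.2 : ℚ) : ℝ) • hX.e t.1)).sum := by
      rw [List.smul_sum, List.map_map]
      rfl
    rw [hbr', e1, ← u2.2]
    have e2 : (F.map fun s => ue ((x : ℝ) • ((s.2.2.2 : ℝ) • hX.e s.1))) =
        F.map fun t => ue (((t.2.2.2 : ℝ) * (x : ℝ) ^ t.2.1 *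
        (1 : ℝ) ^ t.2.2.1) • hX.e t.1) := by
      refine List.map_congr_left fun s hs' => ?_
      rw [(hFm s hs').2.1, (hFm s hs').2.2, pow_one, pow_one, mul_one, smul_smul, mul_comm]
    rw [e2, hF]
    exact hg
  obtain ⟨V, hV1, hV2⟩ := hX.gen l l' hll t ht t' htt
  have u3 := ue_list W hWn hWc (fun w : hX.ι × hX.ι × ℚ =>
    (x : ℝ) • ((w.2.2 : ℝ) • (hX.e w.1 * hX.e w.2.1 - hX.e w.2.1 * hX.e w.1))) V
    (fun w hw => W.smul_mem _ (W.smul_mem _ (partA w.1 w.2.1 (hV1 w hw).1 (hV1 w hw).2 0).1))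
  have e3 : (x : ℝ) • hX.e t' = (V.map fun w : hX.ι × hX.ι × ℚ =>
      (x : ℝ) • ((w.2.2 : ℝ) • (hX.e w.1 * hX.e w.2.1 - hX.e w.2.1 * hX.e w.1))).sum := by
    rw [hV2, List.smul_sum, List.map_map]
    rfl
  rw [e3, ← u3.2]
  apply Subgroup.list_prod_mem
  intro g hg
  obtain ⟨w, hw, rfl⟩ := List.mem_map.1 hg
  have := (partA w.1 w.2.1 (hV1 w hw).1 (hV1 w hw).2 (x * w.2.2)).2
  rw [smul_smul]
  push_cast at this
  exact this

end Pool.Agent.QSN.H17
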